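import Pool.Agent.W376.RT.Stm

/-!
RT-B: the base graph from the finite Bollobas-Erdos configuration.
-/

set_option autoImplicit false

namespace Pool.Agent.W177.RT

open Pool.Agent.W376.RT

/-- the type of a vertex -/
def ty {M : ℕ} (hM : 0 < M) (i : ℕ) : Fin M := ⟨(i / 2) % M, Nat.mod_lt _ hM⟩

lemma residue {M : ℕ} (hM : 0 < M) (p : ℕ) (hp : p < 2) (b : Fin M) (j : ℕ) :
    (j % 2 = p ∧ ty hM j = b) ↔ j ≡ 2 * (b : ℕ) + p [MOD 2 * M] := by
  unfold Nat.ModEq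
  rw [Nat.mod_mul, Nat.mod_eq_of_lt (by have := b.2; omega : 2 * (b : ℕ) + p < 2 * M)]
  unfold ty
  rw [Fin.ext_iff]
  simp only
  have := Nat.mod_lt j (show 0 < 2 by norm_num)
  omega

lemma interval_count {M : ℕ} (hM : 0 < M) (A N v : ℕ) (hA : A ≤ N) :
    ((N : ℝ) - A) / (2 * M) - 1 ≤ (((Finset.Ico A N).filter (fun x => x ≡ v [MOD 2 * M])).card : ℝ) ∧
    (((Finset.Ico A N).filter (fun x => x ≡ v [MOD 2 * M])).card : ℝ) ≤
      ((N : ℝ) - A) / (2 * M) + 1 := by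
  have hMr : (0 : ℚ) < 2 * M := by exact_mod_cast (by omega : 0 < 2 * M)
  have h := Nat.Ico_filter_modEq_card A N (show 0 < 2 * M by omega) v
  push_cast at h
  have h1 := Int.le_ceil (((N : ℚ) - v) / (2 * M))
  have h2 := Int.ceil_lt_add_one (((N : ℚ) - v) / (2 * M))
  have h3 := Int.le_ceil (((A : ℚ) - v) / (2 * M))
  have h4 := Int.ceil_lt_add_one (((A : ℚ) - v) / (2 * M))
  set c := ((Finset.Ico A N).filter (fun x => x ≡ v [MOD 2 * M])).card with hc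
  have hdiv : ((N : ℚ) - v) / (2 * M) - ((A : ℚ) - v) / (2 * M) = ((N : ℚ) - A) / (2 * M) := by
    rw [← sub_div]; congr 1; ring
  have hNA : (0 : ℚ) ≤ ((N : ℚ) - A) / (2 * M) := by
    apply div_nonneg _ hMr.le
    have : (A : ℚ) ≤ N := by exact_mod_cast hA
    linarith
  have hq : (c : ℚ) = max ((⌈((N : ℚ) - v) / (2 * M)⌉ : ℚ) - ⌈((A : ℚ) - v) / (2 * M)⌉) 0 := by
    exact_mod_cast h
  have h5 : ((N : ℚ) - A) / (2 * M) - 1 ≤ (c : ℚ) := by
    rw [hq]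
    refine le_trans ?_ (le_max_left _ _)
    linarith
  have h6 : (c : ℚ) ≤ ((N : ℚ) - A) / (2 * M) + 1 := by
    rw [hq]
    refine max_le ?_ (by linarith)
    linarith
  constructor
  · have := (Rat.cast_le (K := ℝ)).2 h5
    push_cast at this
    exact this
  · have := (Rat.cast_le (K := ℝ)).2 h6
    push_cast at this
    exact this

lemma count_bounds {M : ℕ} (hM : 0 < M) (N A p : ℕ) (hp : p < 2) (hA : A ≤ N) (Q : Fin M → Prop) :
    (({b | Q b}.ncard : ℝ)) * (((N : ℝ) - A) / (2 * M) - 1) ≤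
      ({j : Fin N | A ≤ (j : ℕ) ∧ (j : ℕ) % 2 = p ∧ Q (ty hM j)}.ncard : ℝ) ∧
    ({j : Fin N | A ≤ (j : ℕ) ∧ (j : ℕ) % 2 = p ∧ Q (ty hM j)}.ncard : ℝ) ≤
      ({b | Q b}.ncard : ℝ) * (((N : ℝ) - A) / (2 * M) + 1) := by
  classical
  set X : Finset ℕ := (Finset.Ico A N).filter (fun j => j % 2 = p ∧ Q (ty hM j)) with hX
  have e1 : {j : Fin N | A ≤ (j : ℕ) ∧ (j : ℕ) % 2 = p ∧ Q (ty hM j)}.ncard = X.card := by
    rw [← Set.ncard_coe_finset, ← Set.ncard_image_of_injective _ Fin.val_injective]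
    congr 1
    ext j
    simp only [Set.mem_image, Set.mem_setOf_eq, hX, Finset.coe_filter, Finset.mem_Ico]
    constructor
    · rintro ⟨i, ⟨h1, h2, h3⟩, rfl⟩
      exact ⟨⟨h1, i.2⟩, h2, h3⟩
    · rintro ⟨⟨h1, h2⟩, h3, h4⟩
      exact ⟨⟨j, h2⟩, ⟨h1, h3, h4⟩, rfl⟩
  have e2 : {b | Q b}.ncard = (Finset.univ.filter Q).card := by
    rw [← Set.ncard_coe_finset]
    congr 1
    ext b
    simp
  have e3 : X.card = ∑ b ∈ Finset.univ.filter Q,
      ((Finset.Ico A N).filter (fun x => x ≡ 2 * (b : ℕ) + p [MOD 2 * M])).card := by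
    rw [Finset.card_eq_sum_card_fiberwise (f := fun j => ty hM j) (t := Finset.univ.filter Q)]
    · refine Finset.sum_congr rfl fun b hb => ?_
      congr 1
      ext j
      rw [Finset.mem_filter, hX, Finset.mem_filter, Finset.mem_filter, ← residue hM p hp b j]
      have hQb := (Finset.mem_filter.1 hb).2
      constructor
      · rintro ⟨⟨h1, h2, h3⟩, h4⟩
        exact ⟨h1, h2, h4⟩
      · rintro ⟨h1, h2, h3⟩
        exact ⟨⟨h1, h2, by rw [h3]; exact hQb⟩, h3⟩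
    · intro j hj
      simp only [hX, Finset.coe_filter, Set.mem_setOf_eq] at hj
      simp only [Finset.coe_filter, Finset.mem_univ, true_and, Set.mem_setOf_eq]
      exact hj.2.2
  rw [e1, e2, e3]
  push_cast
  constructor
  · rw [← nsmul_eq_mul, ← Finset.sum_const]
    exact Finset.sum_le_sum fun b _ => (interval_count hM A N _ hA).1
  · rw [← nsmul_eq_mul, ← Finset.sum_const]
    exact Finset.sum_le_sum fun b _ => (interval_count hM A N _ hA).2

/-- the adjacency of the base graph -/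
def Ad {M : ℕ} (hM : 0 < M) (T H : Fin M → Fin M → Prop) (N i j : ℕ) : Prop :=
  (i % 2 = j % 2 ∧ T (ty hM i) (ty hM j)) ∨ (i % 2 ≠ j % 2 ∧ H (ty hM i) (ty hM j) ∧ N ≤ i + j)

theorem main (h : S_BE) : S_BASE := by
  classical
  intro γ hγ
  set η : ℝ := min (γ / 4) (1 / 4) with hη
  have hη0 : 0 < η := lt_min (by positivity) (by norm_num)
  have hη1 : η ≤ γ / 4 := min_le_left _ _
  have hη2 : η ≤ 1 / 4 := min_le_right _ _
  obtain ⟨M, hM, T, H, hT, hH, htri, hfour, hind, hdeg⟩ := h η hη0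
  have hMr : (0 : ℝ) < M := by exact_mod_cast hM
  refine ⟨⌈2 * (M : ℝ) / γ⌉₊, fun N hN => ?_⟩
  have hNr : 2 * (M : ℝ) ≤ γ * N := by
    have h1 : 2 * (M : ℝ) / γ ≤ N := (Nat.le_ceil _).trans (by exact_mod_cast hN)
    rw [div_le_iff₀ hγ] at h1
    linarith
  have hTirr : ∀ a, ¬ T a a := fun a ha => htri a a a ha ha ha
  have hN0 : (0 : ℝ) ≤ N := Nat.cast_nonneg _
  -- degrees of `T`
  have hTdeg : ∀ a, ({b | T a b}.ncard : ℝ) ≤ η * M := by
    intro a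
    apply hind
    intro b hb c hc hbc
    exact htri a b c hb hbc hc
  set G : SimpleGraph (Fin N) :=
    { Adj := fun i j => Ad hM T H N i j
      symm := ⟨by
        intro i j hij
        rcases hij with ⟨h1, h2⟩ | ⟨h1, h2, h3⟩
        · exact Or.inl ⟨h1.symm, hT _ _ h2⟩
        · exact Or.inr ⟨h1.symm, hH _ _ h2, by omega⟩⟩
      loopless := ⟨by
        intro i hi
        rcases hi with ⟨h1, h2⟩ | ⟨h1, h2, h3⟩
        · exact hTirr _ h2
        · exact h1 rfl⟩ } with hG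
  have hAdj : ∀ i j : Fin N, G.Adj i j ↔ Ad hM T H N i j := fun i j => Iff.rfl
  have hside : SideTriFree G := by
    intro a b c hab hbc h1 h2 h3
    rw [hAdj] at h1 h2 h3
    rcases h1 with ⟨_, h1⟩ | ⟨h1, _⟩
    · rcases h2 with ⟨_, h2⟩ | ⟨h2, _⟩
      · rcases h3 with ⟨_, h3⟩ | ⟨h3, _⟩
        · exact htri _ _ _ h1 h2 h3
        · exact h3 (hab.trans hbc)
      · exact h2 hbc
    · exact h1 hab
  have hcross : ∀ a b : Fin N, (a : ℕ) % 2 ≠ (b : ℕ) % 2 → G.Adj a b →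
      H (ty hM a) (ty hM b) := by
    intro a b hab h1
    rw [hAdj] at h1
    rcases h1 with ⟨h1, _⟩ | ⟨_, h1, _⟩
    · exact absurd h1 hab
    · exact h1
  have hsame : ∀ a b : Fin N, (a : ℕ) % 2 = (b : ℕ) % 2 → G.Adj a b →
      T (ty hM a) (ty hM b) := by
    intro a b hab h1
    rw [hAdj] at h1
    rcases h1 with ⟨_, h1⟩ | ⟨h1, _⟩
    · exact h1
    · exact absurd hab h1
  have hK4 : ∀ a b c d : Fin N, G.Adj a b → G.Adj c d → G.Adj a c → G.Adj a d → G.Adj b c →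
      G.Adj b d → (a : ℕ) % 2 = (b : ℕ) % 2 → (c : ℕ) % 2 = (d : ℕ) % 2 →
      (a : ℕ) % 2 ≠ (c : ℕ) % 2 → False := by
    intro a b c d hab hcd hac had hbc hbd h1 h2 h3
    exact hfour _ _ _ _ (hsame a b h1 hab) (hsame c d h2 hcd) (hcross a c h3 hac)
      (hcross a d (by rw [← h2]; exact h3) had) (hcross b c (by rw [← h1]; exact h3) hbc)
      (hcross b d (by rw [← h1, ← h2]; exact h3) hbd)
  refine ⟨G, ?_, hside, ?_, ?_⟩
  · by_contra hcon
    have f := SimpleGraph.topEmbeddingOfNotCliqueFree hcon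
    have hf : ∀ i j : Fin 4, i ≠ j → G.Adj (f i) (f j) := fun i j hij => f.map_rel_iff.2 hij
    have a01 := hf 0 1 (by decide)
    have a02 := hf 0 2 (by decide)
    have a03 := hf 0 3 (by decide)
    have a12 := hf 1 2 (by decide)
    have a13 := hf 1 3 (by decide)
    have a23 := hf 2 3 (by decide)
    have p0 := Nat.mod_two_eq_zero_or_one (f 0 : ℕ)
    have p1 := Nat.mod_two_eq_zero_or_one (f 1 : ℕ)
    have p2 := Nat.mod_two_eq_zero_or_one (f 2 : ℕ)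
    have p3 := Nat.mod_two_eq_zero_or_one (f 3 : ℕ)
    by_cases c012 : (f 0 : ℕ) % 2 = (f 1 : ℕ) % 2 ∧ (f 1 : ℕ) % 2 = (f 2 : ℕ) % 2
    · exact hside _ _ _ c012.1 c012.2 a01 a12 a02
    by_cases c013 : (f 0 : ℕ) % 2 = (f 1 : ℕ) % 2 ∧ (f 1 : ℕ) % 2 = (f 3 : ℕ) % 2
    · exact hside _ _ _ c013.1 c013.2 a01 a13 a03
    by_cases c023 : (f 0 : ℕ) % 2 = (f 2 : ℕ) % 2 ∧ (f 2 : ℕ) % 2 = (f 3 : ℕ) % 2
    · exact hside _ _ _ c023.1 c023.2 a02 a23 a03
    by_cases c123 : (f 1 : ℕ) % 2 = (f 2 : ℕ) % 2 ∧ (f 2 : ℕ) % 2 = (f 3 : ℕ) % 2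
    · exact hside _ _ _ c123.1 c123.2 a12 a23 a13
    by_cases q1 : (f 0 : ℕ) % 2 = (f 1 : ℕ) % 2
    · exact hK4 _ _ _ _ a01 a23 a02 a03 a12 a13 q1 (by omega) (by omega)
    by_cases q2 : (f 0 : ℕ) % 2 = (f 2 : ℕ) % 2
    · exact hK4 _ _ _ _ a02 a13 a01 a03 a12.symm a23 q2 (by omega) (by omega)
    · exact hK4 _ _ _ _ a03 a12 a01 a02 a13.symm a23.symm (by omega) (by omega) (by omega)
  · -- independent sets
    intro S hS
    have hpart : ∀ p : ℕ, p < 2 → ({i ∈ S | (i : ℕ) % 2 = p}.ncard : ℝ) ≤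
        η * M * ((N : ℝ) / (2 * M) + 1) := by
      intro p hp
      set Q : Fin M → Prop := fun b => ∃ i ∈ S, (i : ℕ) % 2 = p ∧ ty hM i = b with hQ
      have h1 : ({b | Q b}.ncard : ℝ) ≤ η * M := by
        apply hind
        rintro a ⟨i, hi, hip, rfl⟩ b ⟨j, hj, hjp, rfl⟩ hab
        exact hS i hi j hj ((hAdj i j).2 (Or.inl ⟨hip.trans hjp.symm, hab⟩))
      have h2 := (count_bounds hM N 0 p hp (Nat.zero_le _) Q).2
      have h3 : ({i ∈ S | (i : ℕ) % 2 = p}.ncard : ℝ) ≤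
          ({j : Fin N | 0 ≤ (j : ℕ) ∧ (j : ℕ) % 2 = p ∧ Q (ty hM j)}.ncard : ℝ) := by
        have h4 : {i ∈ S | (i : ℕ) % 2 = p} ⊆
            {j : Fin N | 0 ≤ (j : ℕ) ∧ (j : ℕ) % 2 = p ∧ Q (ty hM j)} := by
          rintro i ⟨hi1, hi2⟩
          exact ⟨Nat.zero_le _, hi2, i, hi1, hi2, rfl⟩
        exact_mod_cast Set.ncard_le_ncard h4 (Set.toFinite _)
      refine h3.trans (h2.trans ?_)
      push_cast
      rw [sub_zero]
      exact mul_le_mul_of_nonneg_right h1 (by positivity)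
    have hsplit : (S.ncard : ℝ) ≤ ({i ∈ S | (i : ℕ) % 2 = 0}.ncard : ℝ) +
        ({i ∈ S | (i : ℕ) % 2 = 1}.ncard : ℝ) := by
      have h1 : S ⊆ {i ∈ S | (i : ℕ) % 2 = 0} ∪ {i ∈ S | (i : ℕ) % 2 = 1} := by
        intro i hi
        rcases Nat.mod_two_eq_zero_or_one (i : ℕ) with h2 | h2
        · exact Or.inl ⟨hi, h2⟩
        · exact Or.inr ⟨hi, h2⟩
      exact_mod_cast (Set.ncard_le_ncard h1 (Set.toFinite _)).trans (Set.ncard_union_le _ _)
    have h0 := hpart 0 (by norm_num)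
    have h1 := hpart 1 (by norm_num)
    have e : η * M * ((N : ℝ) / (2 * M) + 1) = η * N / 2 + η * M := by
      field_simp
    rw [e] at h0 h1
    have h2 : η * N ≤ γ / 4 * N := mul_le_mul_of_nonneg_right hη1 hN0
    have h3 : η * M ≤ 1 / 4 * M := mul_le_mul_of_nonneg_right hη2 hMr.le
    linarith
  · -- degrees
    intro v
    set p : ℕ := (v : ℕ) % 2 with hp
    have hp2 : p < 2 := Nat.mod_lt _ (by norm_num)
    set A1 : Set (Fin N) := {j : Fin N | 0 ≤ (j : ℕ) ∧ (j : ℕ) % 2 = p ∧ T (ty hM v) (ty hM j)}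
      with hA1
    set A2 : Set (Fin N) := {j : Fin N | N - (v : ℕ) ≤ (j : ℕ) ∧ (j : ℕ) % 2 = 1 - p ∧
      H (ty hM v) (ty hM j)} with hA2
    have hunion : G.neighborSet v = A1 ∪ A2 := by
      ext j
      rw [SimpleGraph.mem_neighborSet, hAdj]
      unfold Ad
      have hjm := Nat.mod_lt (j : ℕ) (show 0 < 2 by norm_num)
      constructor
      · rintro (⟨h1, h2⟩ | ⟨h1, h2, h3⟩)
        · exact Or.inl ⟨Nat.zero_le _, h1.symm, h2⟩
        · exact Or.inr ⟨by omega, by omega, h2⟩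
      · rintro (⟨h1, h2, h3⟩ | ⟨h1, h2, h3⟩)
        · exact Or.inl ⟨h2.symm, h3⟩
        · exact Or.inr ⟨by omega, h3, by omega⟩
    have hdisj : Disjoint A1 A2 := by
      rw [Set.disjoint_left]
      rintro j ⟨_, h1, _⟩ ⟨_, h2, _⟩
      omega
    have hcard : (G.neighborSet v).ncard = A1.ncard + A2.ncard := by
      rw [hunion, Set.ncard_union_eq hdisj (Set.toFinite _) (Set.toFinite _)]
    have hvN : (v : ℕ) ≤ N := v.2.le
    have b1 := (count_bounds hM N 0 p hp2 (Nat.zero_le _) (fun b => T (ty hM v) b)).2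
    have b2 := count_bounds hM N (N - (v : ℕ)) (1 - p) (by omega) (Nat.sub_le _ _)
      (fun b => H (ty hM v) b)
    rw [Nat.cast_sub hvN] at b2
    have hvr : (N : ℝ) - ((N : ℝ) - ((v : ℕ) : ℝ)) = ((v : ℕ) : ℝ) := by ring
    rw [hvr] at b2
    obtain ⟨d1, d2⟩ := hdeg (ty hM v)
    set D : ℝ := ({b | H (ty hM v) b}.ncard : ℝ) with hD
    have hD0 : 0 ≤ D := Nat.cast_nonneg _
    have b1' : (A1.ncard : ℝ) ≤ η * N / 2 + η * M := by
      have h1 : (A1.ncard : ℝ) ≤ η * M * ((N : ℝ) / (2 * M) + 1) := by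
        refine b1.trans ?_
        push_cast
        rw [sub_zero]
        exact mul_le_mul_of_nonneg_right (hTdeg _) (by positivity)
      have e : η * M * ((N : ℝ) / (2 * M) + 1) = η * N / 2 + η * M := by
        field_simp
      rw [e] at h1
      exact h1
    have hv0 : (0 : ℝ) ≤ ((v : ℕ) : ℝ) := Nat.cast_nonneg _
    have hvN' : ((v : ℕ) : ℝ) ≤ N := by exact_mod_cast hvN
    have b2u : (A2.ncard : ℝ) ≤ ((v : ℕ) : ℝ) / 4 + M / 2 := by
      refine b2.2.trans ?_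
      have h1 : D * (((v : ℕ) : ℝ) / (2 * M) + 1) ≤ M / 2 * (((v : ℕ) : ℝ) / (2 * M) + 1) :=
        mul_le_mul_of_nonneg_right d2 (by positivity)
      refine h1.trans (le_of_eq ?_)
      field_simp
      ring
    have b2l : ((v : ℕ) : ℝ) / 4 - η * N / 2 - M / 2 ≤ (A2.ncard : ℝ) := by
      refine le_trans ?_ b2.1
      have h1 : (1 / 2 - η) * M * (((v : ℕ) : ℝ) / (2 * M)) ≤ D * (((v : ℕ) : ℝ) / (2 * M)) :=
        mul_le_mul_of_nonneg_right d1 (by positivity)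
      have h2 : (1 / 2 - η) * M * (((v : ℕ) : ℝ) / (2 * M)) =
          ((v : ℕ) : ℝ) / 4 - η * ((v : ℕ) : ℝ) / 2 := by
        field_simp
        ring
      rw [h2] at h1
      have h3 : η * ((v : ℕ) : ℝ) ≤ η * N := mul_le_mul_of_nonneg_left hvN' hη0.le
      rw [mul_sub, mul_one]
      linarith
    have h2 : η * N ≤ γ / 4 * N := mul_le_mul_of_nonneg_right hη1 hN0
    have h3 : η * M ≤ 1 / 4 * M := mul_le_mul_of_nonneg_right hη2 hMr.le
    have hA10 : (0 : ℝ) ≤ (A1.ncard : ℝ) := Nat.cast_nonneg _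
    rw [hcard]
    push_cast
    rw [abs_le]
    constructor <;> linarith

end Pool.Agent.W177.RT
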